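import Pool.Agent.Q220.LieDim.Main

/-!
# Lie groups with Lie exponent below three: all dimensions and all ranks

The definitions (`RealLieGroup`, `rank`, `IsSubmanifold`, `TripleProductProperty`,
`RealLieGroup.lieExponent`) are in `Pool.Agent.W964.LieExp.Defs`.

The examples are the Heisenberg groups `H_n`, the products `H_n × ℝ`, and the products of `H_n` with
the affine group of the line. In the last group, of dimension `2 n + 3` and rank `2 n + 2`, the
three subgroups of all `(a, 0, 0, p, 0)`, of all `(0, b, r, 0, r)` and of all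
`(c, c, f, f, exp f - 1)`, of dimension `n + 1` each, satisfy the triple product property.
-/

set_option autoImplicit false

open Module
open Pool.Agent.W964.LieExp Q220.LieDim

namespace Pool.Agent.Results.MP_1ece31_lc.LeastExponents

/-- **Theorem.** (1), (2), (3): the least Lie exponent of the real Lie groups of dimension `d` is
`3` for `1 ≤ d ≤ 4`, is `2 + 1 / n` for `d = 2 n + 1 ≥ 3`, and is `2 + 4 / (3 n + 1)` for
`d = 2 n + 2 ≥ 4`. (4), (5): the least Lie exponent of the real Lie groups of rank `r` is `3` for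
`1 ≤ r ≤ 3` and is `2 + 2 / (r - 1)` for all `r ≥ 3`. (6) There is a Lie group of dimension `d`
with Lie exponent less than `3` if and only if `d ≥ 5`. (7) There is a Lie group of rank `r` with
Lie exponent less than `3` if and only if `r ≥ 4`. -/
theorem result :
    (∀ d : ℕ, 1 ≤ d → d ≤ 4 → IsLeast {w : EReal | ∃ A : RealLieGroup, finrank ℝ A.E = d ∧
      w = A.lieExponent} 3) ∧
    (∀ n : ℕ, 1 ≤ n → IsLeast {w : EReal | ∃ A : RealLieGroup, finrank ℝ A.E = 2 * n + 1 ∧
      w = A.lieExponent} ((2 + 1 / (n : ℝ) : ℝ) : EReal)) ∧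
    (∀ n : ℕ, 1 ≤ n → IsLeast {w : EReal | ∃ A : RealLieGroup, finrank ℝ A.E = 2 * n + 2 ∧
      w = A.lieExponent} ((2 + 4 / (3 * (n : ℝ) + 1) : ℝ) : EReal)) ∧
    (∀ r : ℕ, 1 ≤ r → r ≤ 3 → IsLeast {w : EReal | ∃ A : RealLieGroup, rank A.E A.G = r ∧
      w = A.lieExponent} 3) ∧
    (∀ r : ℕ, 3 ≤ r → IsLeast {w : EReal | ∃ A : RealLieGroup, rank A.E A.G = r ∧
      w = A.lieExponent} ((2 + 2 / ((r : ℝ) - 1) : ℝ) : EReal)) ∧
    (∀ d : ℕ, (∃ A : RealLieGroup, finrank ℝ A.E = d ∧ A.lieExponent < 3) ↔ 5 ≤ d) ∧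
    (∀ r : ℕ, (∃ A : RealLieGroup, rank A.E A.G = r ∧ A.lieExponent < 3) ↔ 4 ≤ r) := by
  have hdH : ∀ n : ℕ, finrank ℝ (Heis.lie n).E = 2 * n + 1 := by
    intro n
    show finrank ℝ (HV n) = 2 * n + 1
    simp
    ring
  have hrH : ∀ n : ℕ, rank (Heis.lie n).E (Heis.lie n).G = 2 * n + 1 := Heis.rank_eq
  have hdG : ∀ n δ : ℕ, finrank ℝ (Grp.lie n δ).E = 2 * n + 2 + δ := Grp.finrank_GV
  have hrG : ∀ n δ : ℕ, rank (Grp.lie n δ).E (Grp.lie n δ).G = 2 * n + 2 := Grp.rank_eq
  have c3 : ((3 : ℝ) : EReal) = 3 := rfl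
  -- dimension at most four
  have lowdim : ∀ A : RealLieGroup, finrank ℝ A.E ≤ 4 → 3 ≤ A.lieExponent := by
    intro A hA
    have hpos : 0 < finrank ℝ A.E := finrank_pos
    have h := lower A _ (finrank ℝ A.E) rfl le_rfl (by intro m hm; omega) (by omega)
    have hne : (finrank ℝ A.E : ℝ) ≠ 0 := by exact_mod_cast hpos.ne'
    rwa [mul_div_assoc, div_self hne, mul_one] at h
  have g1 : ∀ d : ℕ, 1 ≤ d → d ≤ 4 → IsLeast {w : EReal | ∃ A : RealLieGroup,
      finrank ℝ A.E = d ∧ w = A.lieExponent} 3 := by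
    intro d h1 h4
    refine ⟨?_, ?_⟩
    · rcases Nat.even_or_odd d with hd | hd
      · obtain ⟨k, hk⟩ := hd
        obtain ⟨n, rfl⟩ : ∃ n, k = n + 1 := ⟨k - 1, by omega⟩
        have hh : finrank ℝ (Grp.lie n 0).E = d := by rw [hdG]; omega
        refine ⟨Grp.lie n 0, hh, ?_⟩
        exact le_antisymm (lowdim _ (by omega)) (le_three _ (by rw [hrG, hdG]))
      · obtain ⟨n, hn⟩ := hd
        have hh : finrank ℝ (Heis.lie n).E = d := by rw [hdH]; omega
        refine ⟨Heis.lie n, hh, ?_⟩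
        exact le_antisymm (lowdim _ (by omega)) (le_three _ (by rw [hrH, hdH]))
    · rintro w ⟨A, hA, rfl⟩
      exact lowdim A (by omega)
  have odd : ∀ n : ℕ, 1 ≤ n → ∀ A : RealLieGroup, finrank ℝ A.E = 2 * n + 1 →
      ((2 + 1 / (n : ℝ) : ℝ) : EReal) ≤ A.lieExponent := by
    intro n hn A hA
    have h := lower A _ (3 * n) hA (by omega) (by intro m hm; omega) (by omega)
    have e : (3 * ((2 * n + 1 : ℕ) : ℝ) / ((3 * n : ℕ) : ℝ)) = 2 + 1 / (n : ℝ) := by
      have : (0 : ℝ) < n := by exact_mod_cast hn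
      push_cast
      field_simp
    rwa [e] at h
  have even_eq : ∀ n : ℕ, (3 * ((2 * n + 2 : ℕ) : ℝ) / ((3 * n + 1 : ℕ) : ℝ)) =
      2 + 4 / (3 * (n : ℝ) + 1) := by
    intro n
    have : (0 : ℝ) ≤ n := by exact_mod_cast n.zero_le
    have h1 : 3 * (n : ℝ) + 1 ≠ 0 := by linarith
    push_cast
    rw [div_eq_iff h1, add_mul, div_mul_cancel₀ _ h1]
    ring
  have even : ∀ n : ℕ, 1 ≤ n → ∀ A : RealLieGroup, finrank ℝ A.E = 2 * n + 2 →
      ((2 + 4 / (3 * (n : ℝ) + 1) : ℝ) : EReal) ≤ A.lieExponent := by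
    intro n hn A hA
    have h := lower A _ (3 * n + 1) hA (by omega) (by intro m hm; omega) (by omega)
    rwa [even_eq n] at h
  have evenle : ∀ n : ℕ, (Grp.lie n 0).lieExponent ≤ ((2 + 4 / (3 * (n : ℝ) + 1) : ℝ) : EReal) := by
    intro n
    have h := Grp.lieExponent_le0 n
    rwa [even_eq n] at h
  have lowrank : ∀ A : RealLieGroup, rank A.E A.G ≤ 3 → 3 ≤ A.lieExponent :=
    Pool.Agent.Y576.LE.three_le_lieExponent
  have g4 : ∀ r : ℕ, 1 ≤ r → r ≤ 3 → IsLeast {w : EReal | ∃ A : RealLieGroup,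
      rank A.E A.G = r ∧ w = A.lieExponent} 3 := by
    intro r h1 h4
    refine ⟨?_, ?_⟩
    · rcases Nat.even_or_odd r with hd | hd
      · obtain ⟨k, hk⟩ := hd
        obtain ⟨n, rfl⟩ : ∃ n, k = n + 1 := ⟨k - 1, by omega⟩
        have hh : rank (Grp.lie n 0).E (Grp.lie n 0).G = r := by rw [hrG]; omega
        refine ⟨Grp.lie n 0, hh, ?_⟩
        exact le_antisymm (lowrank _ (by omega)) (le_three _ (by rw [hrG, hdG]))
      · obtain ⟨n, hn⟩ := hd
        have hh : rank (Heis.lie n).E (Heis.lie n).G = r := by rw [hrH]; omega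
        refine ⟨Heis.lie n, hh, ?_⟩
        exact le_antisymm (lowrank _ (by omega)) (le_three _ (by rw [hrH, hdH]))
    · rintro w ⟨A, hA, rfl⟩
      exact lowrank A (by omega)
  have g5 : ∀ r : ℕ, 3 ≤ r → IsLeast {w : EReal | ∃ A : RealLieGroup, rank A.E A.G = r ∧
      w = A.lieExponent} ((2 + 2 / ((r : ℝ) - 1) : ℝ) : EReal) := by
    intro r h3
    have low : ∀ A : RealLieGroup, rank A.E A.G = r →
        ((2 + 2 / ((r : ℝ) - 1) : ℝ) : EReal) ≤ A.lieExponent := by
      intro A hA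
      have h := Pool.Agent.Y576.LE.le_lieExponent A (by omega)
      rwa [hA] at h
    refine ⟨?_, ?_⟩
    · rcases Nat.even_or_odd r with hd | hd
      · obtain ⟨k, hk⟩ := hd
        obtain ⟨n, rfl⟩ : ∃ n, k = n + 1 := ⟨k - 1, by omega⟩
        have e : r = 2 * n + 2 := by omega
        have hh : rank (Grp.lie n 1).E (Grp.lie n 1).G = r := by rw [hrG]; omega
        refine ⟨Grp.lie n 1, hh, ?_⟩
        apply le_antisymm (low _ hh)
        have h := Grp.lieExponent_le1 n
        rwa [← e] at h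
      · obtain ⟨n, hn⟩ := hd
        have hh : rank (Heis.lie n).E (Heis.lie n).G = r := by rw [hrH]; omega
        refine ⟨Heis.lie n, hh, ?_⟩
        apply le_antisymm (low _ hh)
        have h := Heis.lieExponent_le n (by omega)
        have hn0 : (0 : ℝ) < n := by
          have : 0 < n := by omega
          exact_mod_cast this
        have e : (2 + 2 / ((r : ℝ) - 1)) = 2 + 1 / (n : ℝ) := by
          rw [hn]
          push_cast
          rw [add_sub_cancel_right]
          congr 1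
          field_simp
        rwa [← e] at h
    · rintro w ⟨A, hA, rfl⟩
      exact low A hA
  refine ⟨g1, ?_, ?_, g4, g5, ?_, ?_⟩
  · intro n hn
    refine ⟨⟨Heis.lie n, hdH n, ?_⟩, ?_⟩
    · exact le_antisymm (odd n hn _ (hdH n)) (Heis.lieExponent_le n hn)
    · rintro w ⟨A, hA, rfl⟩
      exact odd n hn A hA
  · intro n hn
    refine ⟨⟨Grp.lie n 0, hdG n 0, ?_⟩, ?_⟩
    · exact le_antisymm (even n hn _ (hdG n 0)) (evenle n)
    · rintro w ⟨A, hA, rfl⟩
      exact even n hn A hA
  · intro d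
    constructor
    · rintro ⟨A, hA, hlt⟩
      by_contra hd
      exact absurd hlt (not_lt.2 (lowdim A (by omega)))
    · intro hd
      rcases Nat.even_or_odd d with he | ho
      · obtain ⟨k, hk⟩ := he
        obtain ⟨n, rfl⟩ : ∃ n, k = n + 1 := ⟨k - 1, by omega⟩
        refine ⟨Grp.lie n 0, by rw [hdG]; omega, lt_of_le_of_lt (evenle n) ?_⟩
        rw [← c3, EReal.coe_lt_coe_iff]
        have hn : (2 : ℝ) ≤ n := by
          have : 2 ≤ n := by omega
          exact_mod_cast this
        have : 4 / (3 * (n : ℝ) + 1) < 1 := by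
          rw [div_lt_one (by linarith)]
          linarith
        linarith
      · obtain ⟨n, hn⟩ := ho
        refine ⟨Heis.lie n, by rw [hdH]; omega,
          lt_of_le_of_lt (Heis.lieExponent_le n (by omega)) ?_⟩
        rw [← c3, EReal.coe_lt_coe_iff]
        have hn : (2 : ℝ) ≤ n := by
          have : 2 ≤ n := by omega
          exact_mod_cast this
        have : 1 / (n : ℝ) < 1 := by
          rw [div_lt_one (by linarith)]
          linarith
        linarith
  · intro r
    constructor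
    · rintro ⟨A, hA, hlt⟩
      by_contra hd
      exact absurd hlt (not_lt.2 (lowrank A (by omega)))
    · intro hr
      obtain ⟨⟨A, hA, hw⟩, -⟩ := g5 r (by omega)
      refine ⟨A, hA, ?_⟩
      rw [← hw, ← c3, EReal.coe_lt_coe_iff]
      have hr' : (4 : ℝ) ≤ r := by exact_mod_cast hr
      have : 2 / ((r : ℝ) - 1) < 1 := by
        rw [div_lt_one (by linarith)]
        linarith
      linarith

end Pool.Agent.Results.MP_1ece31_lc.LeastExponents
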